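import Mathlib
import Pool.Agent.N240.HK.Stm

/-!
# Project HK (helper240), WIN: a common window of heights (helper521)
-/

set_option autoImplicit false

namespace Pool.Agent.N521.HK.WIN

open MeasureTheory Set
open scoped ENNReal
open Pool.Agent.N240.HK

theorem main : Pool.Agent.N240.HK.S_win := by
  intro d V a K hV h
  let T : Vec d → Set ℝ := fun v => {t : ℝ | linePoint v (a v) t ∈ K}
  let W : ℤ × ℕ → Set (Vec d) := fun p => {v | v ∈ V ∧
    ENNReal.ofReal (1 / ((p.2 : ℝ) + 1)) ≤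
      volume (T v ∩ Icc ((p.1 : ℝ) / 4) (((p.1 : ℝ) + 1) / 4))}
  have hcov : V ⊆ ⋃ p, W p := by
    intro v hv
    have h2 : 0 < volume (T v) := pos_iff_ne_zero.2 (h v hv)
    have h4 : ∃ k : ℤ, 0 < volume (T v ∩ Icc ((k : ℝ) / 4) (((k : ℝ) + 1) / 4)) := by
      by_contra hcon
      push Not at hcon
      have h5 : volume (⋃ k : ℤ, T v ∩ Icc ((k : ℝ) / 4) (((k : ℝ) + 1) / 4)) = 0 :=
        measure_iUnion_null (fun k => le_antisymm (hcon k) zero_le)
      have h6 : T v ⊆ ⋃ k : ℤ, T v ∩ Icc ((k : ℝ) / 4) (((k : ℝ) + 1) / 4) := by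
        intro u hu
        refine mem_iUnion.2 ⟨⌊4 * u⌋, hu, ?_, ?_⟩
        · have := Int.floor_le (4 * u)
          linarith
        · have := (Int.lt_floor_add_one (4 * u)).le
          linarith
      exact absurd (measure_mono_null h6 h5) h2.ne'
    obtain ⟨k, hk⟩ := h4
    obtain ⟨N, hN⟩ := ENNReal.exists_inv_nat_lt hk.ne'
    refine mem_iUnion.2 ⟨(k, N), hv, ?_⟩
    refine le_trans ?_ hN.le
    have h7 : ENNReal.ofReal (1 / ((N : ℝ) + 1)) ≤ ((N + 1 : ℕ) : ℝ≥0∞)⁻¹ := by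
      rw [one_div, ENNReal.ofReal_inv_of_pos (by positivity)]
      apply le_of_eq
      congr 1
      rw [← Nat.cast_succ, ENNReal.ofReal_natCast]
    refine h7.trans (ENNReal.inv_le_inv.2 ?_)
    exact_mod_cast Nat.le_succ N
  have hex : ∃ p, volume (W p) ≠ 0 := by
    by_contra hcon
    push Not at hcon
    exact hV (measure_mono_null hcov (measure_iUnion_null hcon))
  obtain ⟨⟨k, N⟩, hp⟩ := hex
  refine ⟨W (k, N), (k : ℝ) / 4 + 1 / 8, 1 / ((N : ℝ) + 1), fun v hv => hv.1, hp,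
    by positivity, fun v hv => ?_⟩
  have e1 : (k : ℝ) / 4 + 1 / 8 - 1 / 8 = (k : ℝ) / 4 := by ring
  have e2 : (k : ℝ) / 4 + 1 / 8 + 1 / 8 = ((k : ℝ) + 1) / 4 := by ring
  rw [e1, e2]
  exact hv.2

end Pool.Agent.N521.HK.WIN
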